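import Mathlib
import Pool.Agent.Y734.R.Stms
import Pool.Agent.Y734.M.Sharp

/-!
# Project Y734/R, job LOW: infinitely many integral points of degree at most `r` of `M_{0,2r+1}`

Plan of helper734, proof written by helper232.
-/

set_option autoImplicit false

namespace Pool.Agent.Y734.R.LOW

open Pool.Agent.Y734.M Pool.Agent.Y734.R Polynomial

/-- an extension of degree at most the degree of `F` with a root of `F` -/
theorem exists_root (k : Type) [Field k] [NumberField k] (F : ℤ[X]) (hF : F.Monic)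
    (hd : 0 < F.natDegree) : ∃ (L : Type) (_ : Field L) (_ : NumberField L) (_ : Algebra k L)
      (x : L), Module.finrank k L ≤ F.natDegree ∧ aeval x F = 0 := by
  set Fk : k[X] := F.map (Int.castRingHom k) with hFk
  have hdk : Fk.natDegree = F.natDegree := hF.natDegree_map _
  have hFk0 : Fk ≠ 0 := (hF.map _).ne_zero
  obtain ⟨g, hg, hgF⟩ := exists_irreducible_of_natDegree_pos (f := Fk) (by rw [hdk]; exact hd)
  have hfact : Fact (Irreducible g) := ⟨hg⟩
  have hfin : Module.Finite k (AdjoinRoot g) := (AdjoinRoot.powerBasis hg.ne_zero).finite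
  have hnf : NumberField (AdjoinRoot g) := NumberField.of_module_finite k (AdjoinRoot g)
  refine ⟨AdjoinRoot g, inferInstance, hnf, inferInstance, AdjoinRoot.root g, ?_, ?_⟩
  · rw [(AdjoinRoot.powerBasis hg.ne_zero).finrank, AdjoinRoot.powerBasis_dim, ← hdk]
    exact natDegree_le_of_dvd hgF hFk0
  · obtain ⟨q, hq⟩ := hgF
    have h1 : Fk.eval₂ (AdjoinRoot.of g) (AdjoinRoot.root g) = 0 := by
      rw [hq, eval₂_mul, AdjoinRoot.eval₂_root, zero_mul]
    rw [hFk, eval₂_map] at h1
    rw [aeval_def, ← h1]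
    congr 1

section su

variable {L : Type} [Field L]

theorem aeval_int {x : L} (hx : IsIntegral ℤ x) (q : ℤ[X]) : IsIntegral ℤ (aeval x q) :=
  adjoin_le_integralClosure hx (aeval_mem_adjoin_singleton ℤ x)

theorem int_cast (m : ℤ) : IsIntegral ℤ ((m : ℤ) : L) := isIntegral_algebraMap

theorem int_nat (m : ℕ) : IsIntegral ℤ ((m : ℕ) : L) := by
  have := int_cast (L := L) (m : ℤ)
  simpa using this

theorem int_S (S : Finset ℕ) (m : ℕ) : IsIntegral ℤ ((∏ p ∈ S, (p : L)) ^ m) :=
  (IsIntegral.prod (fun p : ℕ => (p : L)) fun p _ => int_nat p).pow m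

theorem su_of_mul {S : Finset ℕ} {a b : L} (ha : IsIntegral ℤ a) (hb : IsIntegral ℤ b)
    (hab : SU S (a * b)) : SU S a := by
  obtain ⟨h0, m, -, h2⟩ := hab
  have ha0 : a ≠ 0 := left_ne_zero_of_mul h0
  have hb0 : b ≠ 0 := right_ne_zero_of_mul h0
  refine ⟨ha0, m, (int_S S m).mul ha, ?_⟩
  refine int_congr (hb.mul h2) ?_
  field_simp

theorem su_prod {S : Finset ℕ} {ι : Type} (s : Finset ι) (f : ι → L) (h : ∀ i ∈ s, SU S (f i)) :
    SU S (∏ i ∈ s, f i) := by
  classical
  induction s using Finset.induction_on with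
  | empty => rw [Finset.prod_empty]; exact su_one S
  | insert a s ha ih =>
    rw [Finset.prod_insert ha]
    exact su_mul (h a (Finset.mem_insert_self a s))
      (ih fun i hi => h i (Finset.mem_insert_of_mem hi))

theorem dvd_pow_of (M : ℕ) (a : ℕ) : a ≠ 0 → (∀ p : ℕ, p.Prime → p ∣ a → p ∣ M) →
    ∃ n : ℕ, a ∣ M ^ n := by
  induction a using induction_on_primes with
  | zero => intro h; exact absurd rfl h
  | one => intro _ _; exact ⟨0, by simp⟩
  | prime_mul p a hp ih =>
    intro h0 h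
    obtain ⟨n, hn⟩ := ih (right_ne_zero_of_mul h0) (fun q hq hqa => h q hq (hqa.mul_left p))
    exact ⟨n + 1, by rw [pow_succ']; exact mul_dvd_mul (h p hp (dvd_mul_right p a)) hn⟩

/-- the primes up to `2r` -/
def Sr (r : ℕ) : Finset ℕ := (Finset.range (2 * r + 1)).filter Nat.Prime

theorem su_nat [CharZero L] (r a : ℕ) (ha0 : a ≠ 0) (ha : a ≤ 2 * r) : SU (Sr r) (a : L) := by
  obtain ⟨n, c, hc⟩ := dvd_pow_of (∏ p ∈ Sr r, p) a ha0 (by
    intro p hp hpa
    apply Finset.dvd_prod_of_mem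
    have := Nat.le_of_dvd (Nat.pos_of_ne_zero ha0) hpa
    simp only [Sr, Finset.mem_filter, Finset.mem_range]
    exact ⟨by omega, hp⟩)
  have ha' : (a : L) ≠ 0 := by exact_mod_cast ha0
  refine ⟨ha', n, (int_S _ n).mul (int_nat a), ?_⟩
  refine int_congr (int_nat c) ?_
  have h1 : ((∏ p ∈ Sr r, (p : L)) ^ n) = (a : L) * c := by
    have := congrArg (fun z : ℕ => (z : L)) hc
    push_cast at this
    exact this
  rw [h1]
  field_simp

theorem su_int [CharZero L] (r : ℕ) (a : ℤ) (ha0 : a ≠ 0) (ha : |a| ≤ 2 * r) :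
    SU (Sr r) (a : L) := by
  have h1 : SU (Sr r) ((a.natAbs : ℕ) : L) := su_nat r a.natAbs (by omega) (by
    have : ((a.natAbs : ℕ) : ℤ) = |a| := Int.natCast_natAbs a
    omega)
  rcases Int.natAbs_eq a with h | h
  · have e : (a : L) = ((a.natAbs : ℕ) : L) := by
      rw [← Int.cast_natCast (R := L), ← h]
    exact su_congr h1 e
  · have e : (a : L) = -((a.natAbs : ℕ) : L) := by
      rw [← Int.cast_natCast (R := L), ← Int.cast_neg, ← h]
    exact su_congr (su_neg h1) e

end su

/-- the polynomial `∏ (T - i) - 2 ^ N ∏ (T - r - j)` -/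
noncomputable def pF (r N : ℕ) : ℤ[X] :=
  ∏ i ∈ Finset.range r, (X - C ((i : ℤ) + 1)) -
    C (2 ^ N) * ∏ j ∈ Finset.range (r - 1), (X - C ((r : ℤ) + j + 1))

theorem pF_deg {r : ℕ} (hr : 2 ≤ r) (N : ℕ) : (pF r N).Monic ∧ (pF r N).natDegree = r := by
  have hA : (∏ i ∈ Finset.range r, (X - C ((i : ℤ) + 1)) : ℤ[X]).Monic :=
    monic_prod_X_sub_C _ _
  have hAd : (∏ i ∈ Finset.range r, (X - C ((i : ℤ) + 1)) : ℤ[X]).natDegree = r := by
    rw [natDegree_finsetProd_X_sub_C_eq_card, Finset.card_range]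
  have hB : (∏ j ∈ Finset.range (r - 1), (X - C ((r : ℤ) + j + 1)) : ℤ[X]).natDegree = r - 1 := by
    rw [natDegree_finsetProd_X_sub_C_eq_card, Finset.card_range]
  have hB' : (C (2 ^ N) * ∏ j ∈ Finset.range (r - 1), (X - C ((r : ℤ) + j + 1)) :
      ℤ[X]).natDegree < (∏ i ∈ Finset.range r, (X - C ((i : ℤ) + 1)) : ℤ[X]).natDegree := by
    rw [hAd]
    refine lt_of_le_of_lt (natDegree_C_mul_le _ _) ?_
    rw [hB]
    omega
  constructor
  · exact hA.sub_of_left (degree_lt_degree hB')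
  · unfold pF
    rw [natDegree_sub_eq_left_of_natDegree_lt hB', hAd]

theorem pF_eval (r N : ℕ) (c : ℤ) : (pF r N).eval c =
    ∏ i ∈ Finset.range r, (c - ((i : ℤ) + 1)) -
      2 ^ N * ∏ j ∈ Finset.range (r - 1), (c - ((r : ℤ) + j + 1)) := by
  unfold pF
  simp only [eval_sub, eval_mul, eval_prod, eval_X, eval_C]

section pt

variable {L : Type} [Field L] [CharZero L]

theorem pF_aeval (r N : ℕ) (x : L) : aeval x (pF r N) =
    ∏ i ∈ Finset.range r, (x - ((i : L) + 1)) -
      2 ^ N * ∏ j ∈ Finset.range (r - 1), (x - ((r : L) + j + 1)) := by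
  have h2 : aeval x (2 : ℤ[X]) = 2 := map_ofNat (aeval x) 2
  unfold pF
  simp only [map_sub, map_mul, map_prod, aeval_X]
  simp [h2]

/-- the value at `c` is a unit -/
theorem su_pF {r : ℕ} (hr : 2 ≤ r) (N : ℕ) (c : ℤ) (h1 : 1 ≤ c) (h2 : c ≤ 2 * r - 1) :
    SU (Sr r) (((pF r N).eval c : ℤ) : L) := by
  rw [pF_eval]
  by_cases hc : c ≤ r
  · have h0 : ∏ i ∈ Finset.range r, (c - ((i : ℤ) + 1)) = 0 := by
      apply Finset.prod_eq_zero (i := (c - 1).toNat)
      · rw [Finset.mem_range]; omega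
      · omega
    rw [h0, zero_sub]
    push_cast
    apply su_neg
    apply su_mul
    · have h3 : SU (Sr r) ((2 : ℕ) : L) := su_nat r 2 (by norm_num) (by omega)
      have h4 : SU (Sr r) (∏ _i ∈ Finset.range N, ((2 : ℕ) : L)) := su_prod _ _ fun i _ => h3
      rw [Finset.prod_const, Finset.card_range] at h4
      exact_mod_cast h4
    · apply su_prod
      intro j hj
      rw [Finset.mem_range] at hj
      have h5 := su_int (L := L) r (c - ((r : ℤ) + j + 1)) (by omega) (by
        rw [abs_le]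
        constructor <;> omega)
      push_cast at h5
      exact h5
  · have h0 : ∏ j ∈ Finset.range (r - 1), (c - ((r : ℤ) + j + 1)) = 0 := by
      apply Finset.prod_eq_zero (i := (c - r - 1).toNat)
      · rw [Finset.mem_range]; omega
      · omega
    rw [h0, mul_zero, sub_zero]
    push_cast
    apply su_prod
    intro j hj
    rw [Finset.mem_range] at hj
    have h5 := su_int (L := L) r (c - ((j : ℤ) + 1)) (by omega) (by
      rw [abs_le]
      constructor <;> omega)
    push_cast at h5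
    exact h5

theorem su_x_sub {r : ℕ} (hr : 2 ≤ r) (N : ℕ) {x : L} (hx : aeval x (pF r N) = 0) (c : ℤ)
    (h1 : 1 ≤ c) (h2 : c ≤ 2 * r - 1) : SU (Sr r) (x - c) := by
  have hxi : IsIntegral ℤ x := ⟨pF r N, (pF_deg hr N).1, hx⟩
  obtain ⟨q, hq⟩ := X_sub_C_dvd_sub_C_eval (a := c) (p := pF r N)
  have h3 := congrArg (aeval x) hq
  rw [map_sub, hx, map_mul, map_sub, aeval_X, zero_sub] at h3
  simp only [eq_intCast, map_intCast] at h3
  refine su_of_mul (hxi.sub (int_cast c)) (aeval_int hxi q) ?_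
  rw [← h3]
  exact su_neg (su_pF hr N c h1 h2)

/-- the points -/
noncomputable def pts (r : ℕ) (x : L) (i : Fin (2 * r + 1)) : Fin 2 → L :=
  if (i : ℕ) = 0 then ![1, 0] else if (i : ℕ) = 2 * r then ![x, 1] else ![((i : ℕ) : L), 1]

theorem su_pts {r : ℕ} (hr : 2 ≤ r) (N : ℕ) {x : L} (hx : aeval x (pF r N) = 0)
    (i j : Fin (2 * r + 1)) (hij : i ≠ j) : SU (Sr r) (dt (pts r x i) (pts r x j)) := by
  have hi := i.2
  have hj := j.2
  have hij' : (i : ℕ) ≠ j := fun h => hij (Fin.ext h)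
  unfold pts dt
  by_cases hi0 : (i : ℕ) = 0
  · have hj0 : (j : ℕ) ≠ 0 := fun h => hij' (by rw [hi0, h])
    rw [if_pos hi0, if_neg hj0]
    by_cases hjr : (j : ℕ) = 2 * r
    · rw [if_pos hjr]
      exact su_congr (su_one _) (by simp)
    · rw [if_neg hjr]
      exact su_congr (su_one _) (by simp)
  · rw [if_neg hi0]
    by_cases hir : (i : ℕ) = 2 * r
    · rw [if_pos hir]
      have hjr : (j : ℕ) ≠ 2 * r := fun h => hij' (by rw [hir, h])
      rw [if_neg hjr]
      by_cases hj0 : (j : ℕ) = 0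
      · rw [if_pos hj0]
        exact su_congr (su_neg (su_one _)) (by simp)
      · rw [if_neg hj0]
        have h1 := su_x_sub hr N hx ((j : ℕ) : ℤ) (by omega) (by omega)
        refine su_congr h1 ?_
        simp
    · rw [if_neg hir]
      by_cases hj0 : (j : ℕ) = 0
      · rw [if_pos hj0]
        exact su_congr (su_neg (su_one _)) (by simp)
      · rw [if_neg hj0]
        by_cases hjr : (j : ℕ) = 2 * r
        · rw [if_pos hjr]
          have h1 := su_neg (su_x_sub hr N hx ((i : ℕ) : ℤ) (by omega) (by omega))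
          refine su_congr h1 ?_
          simp
        · rw [if_neg hjr]
          have h1 := su_int (L := L) r (((i : ℕ) : ℤ) - ((j : ℕ) : ℤ)) (by omega) (by
            rw [abs_le]
            constructor <;> omega)
          refine su_congr h1 ?_
          simp

theorem ip_pts {r : ℕ} (hr : 2 ≤ r) (N : ℕ) {x : L} (hx : aeval x (pF r N) = 0) :
    IP (Sr r) (pts r x) := by
  refine ⟨fun i j hij => (su_pts hr N hx i j hij).1, fun g hg => ?_⟩
  have hne : ∀ a b : Fin 4, a ≠ b → g a ≠ g b := fun a b hab h => hab (hg h)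
  unfold cr
  rw [div_eq_mul_inv]
  exact su_mul (su_mul (su_pts hr N hx _ _ (hne 0 1 (by decide)))
    (su_pts hr N hx _ _ (hne 2 3 (by decide))))
    (su_inv (su_mul (su_pts hr N hx _ _ (hne 0 2 (by decide)))
      (su_pts hr N hx _ _ (hne 1 3 (by decide)))))

theorem cr_val {r : ℕ} (hr : 2 ≤ r) (x : L) :
    cr (pts r x) ⟨0, by omega⟩ ⟨2 * r, by omega⟩ ⟨1, by omega⟩ ⟨2, by omega⟩ = -(x - 2)⁻¹ := by
  have e0 : pts r x ⟨0, by omega⟩ = ![1, 0] := by simp [pts]
  have e1 : pts r x ⟨2 * r, by omega⟩ = ![x, 1] := by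
    unfold pts
    rw [if_neg (by simp; omega), if_pos rfl]
  have e2 : pts r x ⟨1, by omega⟩ = ![1, 1] := by
    unfold pts
    rw [if_neg (by simp), if_neg (by simp; omega)]
    simp
  have e3 : pts r x ⟨2, by omega⟩ = ![2, 1] := by
    unfold pts
    rw [if_neg (by simp), if_neg (by simp; omega)]
    simp
  unfold cr
  rw [e0, e1, e2, e3]
  unfold dt
  simp only [Matrix.cons_val_zero, Matrix.cons_val_one]
  have h1 : (1 * 1 - 0 * x : L) * (1 * 1 - 1 * 2) = -1 := by ring
  have h2 : (1 * 1 - 0 * 1 : L) * (x * 1 - 1 * 2) = x - 2 := by ring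
  rw [h1, h2, neg_div, one_div]

end pt

theorem low : LowStmt := by
  intro k _ _ r hr
  refine ⟨Sr r, fun p hp => (Finset.mem_filter.1 hp).2, ?_⟩
  have hex := fun N : ℕ => exists_root k (pF r N) (pF_deg hr N).1 (by
    rw [(pF_deg hr N).2]; omega)
  choose L iF iN iA x hL hx using hex
  have hφ : ∀ N, Nonempty (L N →+* ℂ) := fun N => inferInstance
  let φ : ∀ N, L N →+* ℂ := fun N => (hφ N).some
  refine Set.infinite_of_injective_forall_mem
    (f := fun N => fun i j l m => φ N (cr (pts r (x N)) i j l m)) ?_ ?_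
  · intro N N' hNN
    have h1 : φ N (x N) = φ N' (x N') := by
      have h2 := congrFun (congrFun (congrFun (congrFun hNN ⟨0, by omega⟩) ⟨2 * r, by omega⟩)
        ⟨1, by omega⟩) ⟨2, by omega⟩
      simp only [cr_val hr, map_neg, map_inv₀, map_sub, map_ofNat] at h2
      have h3 := inv_injective (neg_injective h2)
      exact sub_left_injective h3
    have hmap : ∀ N, ∏ i ∈ Finset.range r, (φ N (x N) - ((i : ℂ) + 1)) =
        2 ^ N * ∏ j ∈ Finset.range (r - 1), (φ N (x N) - ((r : ℂ) + j + 1)) := by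
      intro N
      have h4 := hx N
      rw [pF_aeval] at h4
      have h5 := congrArg (φ N) (sub_eq_zero.1 h4)
      rw [map_prod, map_mul, map_prod, map_pow, map_ofNat (φ N) 2] at h5
      simpa using h5
    have hne : ∏ j ∈ Finset.range (r - 1), (φ N (x N) - ((r : ℂ) + j + 1)) ≠ 0 := by
      rw [Finset.prod_ne_zero_iff]
      intro j hj hcon
      rw [Finset.mem_range] at hj
      have h6 := (su_x_sub hr N (hx N) ((r : ℤ) + j + 1) (by omega) (by omega)).1
      apply h6
      apply (φ N).injective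
      rw [map_sub, map_zero, ← hcon]
      simp
    have e1 := hmap N
    have e2 := hmap N'
    rw [← h1] at e2
    have e3 := mul_right_cancel₀ hne (e1.symm.trans e2)
    have h6 : ((2 ^ N : ℕ) : ℂ) = ((2 ^ N' : ℕ) : ℂ) := by
      push_cast
      exact e3
    exact Nat.pow_right_injective le_rfl (Nat.cast_injective h6)
  · intro N
    exact ⟨L N, iF N, iN N, iA N, _, φ N, (hL N).trans_eq (pF_deg hr N).2, ip_pts hr N (hx N), rfl⟩

end Pool.Agent.Y734.R.LOW
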